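import Pool.Agent.W251.GX.Defs

/-! Project GX: the Matomaki-Radziwill theorem for the level sets. -/

set_option autoImplicit false

namespace Pool.Agent.W143.GX

open Finset Filter Pool.Agent.W251.GX
open Pool.Agent.H376R2.MR (FK Fj)
open Pool.Agent.W78.GA (Qd nm prim bg dt ip lat cellM mE ps DPG ball pball edge dedge ang Ele)

variable {t c : ℤ}

/-- powers -/
theorem cm_pow {N : ℕ} {F : Qd t c → ℂ} (h : Cm N F) (j : ℕ) : Cm N (fun z => F z ^ j) where
  pos := h.pos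
  mul z w hz hw := by
    show F (z * w) ^ j = F z ^ j * F w ^ j
    rw [h.mul z w hz hw, mul_pow]
  pow z := by
    show (F z ^ j) ^ N = 1
    rw [← pow_mul, mul_comm, pow_mul, h.pow, one_pow]

/-- orthogonality -/
theorem ind_eq {N : ℕ} {F : Qd t c → ℂ} (h : Cm N F) (a : ℂ) (ha : a ^ N = 1) (z : Qd t c) :
    ind (fun z => F z = a) z = (1 / (N : ℂ)) * ∑ j ∈ range N, (a⁻¹) ^ j * F z ^ j := by
  have hN : (N : ℂ) ≠ 0 := by
    have := h.pos
    exact_mod_cast (by omega : N ≠ 0)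
  have ha0 : a ≠ 0 := by
    intro h0
    rw [h0, zero_pow (by have := h.pos; omega)] at ha
    exact zero_ne_one ha
  simp only [← mul_pow]
  unfold ind
  by_cases hz : F z = a
  · rw [if_pos hz, hz, inv_mul_cancel₀ ha0]
    simp only [one_pow, sum_const, card_range, nsmul_eq_mul, mul_one]
    field_simp
  · rw [if_neg hz]
    have hx : a⁻¹ * F z ≠ 1 := by
      intro h1
      apply hz
      have h2 : a * (a⁻¹ * F z) = a * 1 := by rw [h1]
      rwa [← mul_assoc, mul_inv_cancel₀ ha0, one_mul, mul_one] at h2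
    have h3 : (∑ j ∈ range N, (a⁻¹ * F z) ^ j) * (a⁻¹ * F z - 1) = 0 := by
      rw [geom_sum_mul, mul_pow, inv_pow, ha, h.pow]
      simp
    rcases mul_eq_zero.1 h3 with h4 | h4
    · rw [h4, mul_zero]
    · exact absurd (sub_eq_zero.1 h4) hx

theorem gf_ind {N : ℕ} {F : Qd t c → ℂ} (h : Cm N F) (a : ℂ) (ha : a ^ N = 1) (Y : ℝ) (k : ℤ) :
    GF (ind (fun z => F z = a)) Y k =
      (1 / (N : ℂ)) * ∑ j ∈ range N, (a⁻¹) ^ j * GF (fun z => F z ^ j) Y k := by
  unfold GF DPG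
  simp only [mul_sum]
  rw [sum_comm]
  refine sum_congr rfl fun z _ => ?_
  rw [ind_eq h a ha z, mul_sum, sum_mul, sum_mul]
  refine sum_congr rfl fun j _ => ?_
  ring

theorem gf_bound {N : ℕ} {F : Qd t c → ℂ} (h : Cm N F) (a : ℂ) (Y : ℝ) (k : ℤ) :
    ‖GF (ind (fun z => F z = a)) Y k‖ ^ 2 ≤
      (1 / (N : ℝ)) * ∑ j ∈ range N, ‖GF (fun z => F z ^ j) Y k‖ ^ 2 := by
  have hN : (0 : ℝ) < N := by exact_mod_cast h.pos
  by_cases ha : a ^ N = 1
  · have hna : ‖a‖ = 1 := Complex.norm_eq_one_of_pow_eq_one ha (by have := h.pos; omega)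
    have h1 : ‖GF (ind (fun z => F z = a)) Y k‖ ≤
        (1 / (N : ℝ)) * ∑ j ∈ range N, ‖GF (fun z => F z ^ j) Y k‖ := by
      rw [gf_ind h a ha Y k, norm_mul]
      have h2 : ‖(1 / (N : ℂ))‖ = 1 / (N : ℝ) := by
        rw [norm_div, norm_one, Complex.norm_natCast]
      rw [h2]
      refine mul_le_mul_of_nonneg_left ?_ (by positivity)
      refine (norm_sum_le _ _).trans (le_of_eq ?_)
      refine sum_congr rfl fun j _ => ?_
      rw [norm_mul, norm_pow, norm_inv, hna, inv_one, one_pow, one_mul]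
    calc ‖GF (ind (fun z => F z = a)) Y k‖ ^ 2
        ≤ ((1 / (N : ℝ)) * ∑ j ∈ range N, ‖GF (fun z => F z ^ j) Y k‖) ^ 2 :=
          pow_le_pow_left₀ (norm_nonneg _) h1 2
      _ = (1 / (N : ℝ)) ^ 2 * (∑ j ∈ range N, ‖GF (fun z => F z ^ j) Y k‖) ^ 2 := by ring
      _ ≤ (1 / (N : ℝ)) ^ 2 * ((N : ℝ) * ∑ j ∈ range N, ‖GF (fun z => F z ^ j) Y k‖ ^ 2) := by
          refine mul_le_mul_of_nonneg_left ?_ (by positivity)
          have := sq_sum_le_card_mul_sum_sq (s := range N)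
            (f := fun j => ‖GF (fun z => F z ^ j) Y k‖)
          rwa [card_range] at this
      _ = _ := by field_simp
  · have h0 : GF (ind (fun z => F z = a)) Y k = 0 := by
      unfold GF DPG
      refine sum_eq_zero fun z _ => ?_
      have : ind (fun z => F z = a) z = 0 := by
        unfold ind
        rw [if_neg]
        intro h1
        apply ha
        rw [← h1]
        exact h.pow z
      show ind (fun z => F z = a) z * (bg Y z : ℂ) * ps k z = 0
      rw [this]; ring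
    rw [h0, norm_zero]
    have h1 : 0 ≤ ∑ j ∈ range N, ‖GF (fun z => F z ^ j) Y k‖ ^ 2 := sum_nonneg fun j _ => by positivity
    have h2 : 0 ≤ (1 / (N : ℝ)) * ∑ j ∈ range N, ‖GF (fun z => F z ^ j) Y k‖ ^ 2 :=
      mul_nonneg (by positivity) h1
    simpa using h2

theorem mri (h : S_MR t c) : S_MRI t c := by
  intro N F hF η hη
  have hN : 1 ≤ N := hF.pos
  have hN' : (0 : ℝ) < N := by exact_mod_cast hN
  choose hh hh1 Y0 hY using fun j : ℕ => h N (fun z => F z ^ j) (cm_pow hF j) η hη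
  have hsum : ∀ j ∈ range N, hh j ≤ ∑ i ∈ range N, hh i := fun j hj =>
    single_le_sum (f := hh) (fun i _ => by linarith [hh1 i]) hj
  have hYs : ∀ j ∈ range N, |Y0 j| ≤ ∑ i ∈ range N, |Y0 i| := fun j hj =>
    single_le_sum (f := fun i => |Y0 i|) (fun i _ => abs_nonneg _) hj
  refine ⟨∑ i ∈ range N, hh i, (hh1 0).trans (hsum 0 (mem_range.2 hN)), ∑ i ∈ range N, |Y0 i|,
    fun Y K a hYY hK => ?_⟩
  have hY0 : 0 ≤ Y := le_trans (sum_nonneg fun i _ => abs_nonneg _) hYY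
  have key : ∀ j ∈ range N, ∑ k ∈ (FK K).erase 0, ‖GF (fun z => F z ^ j) Y k‖ ^ 2 ≤ η := by
    intro j hj
    refine le_trans ?_ (hY j Y (((le_abs_self _).trans (hYs j hj)).trans hYY))
    refine sum_le_sum_of_subset_of_nonneg ?_ (fun k _ _ => by positivity)
    refine erase_subset_erase _ ?_
    have hKK : K ≤ ⌊Y / hh j⌋₊ := by
      refine Nat.le_floor (hK.trans ?_)
      exact div_le_div_of_nonneg_left hY0 (by linarith [hh1 j]) (hsum j hj)
    intro k hk
    unfold FK at hk ⊢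
    rw [mem_Ioo] at hk ⊢
    constructor
    · have : (K : ℤ) ≤ (⌊Y / hh j⌋₊ : ℤ) := by exact_mod_cast hKK
      linarith [hk.1]
    · have : (K : ℤ) ≤ (⌊Y / hh j⌋₊ : ℤ) := by exact_mod_cast hKK
      linarith [hk.2]
  calc ∑ k ∈ (FK K).erase 0, ‖GF (ind (fun z => F z = a)) Y k‖ ^ 2
      ≤ ∑ k ∈ (FK K).erase 0, (1 / (N : ℝ)) * ∑ j ∈ range N, ‖GF (fun z => F z ^ j) Y k‖ ^ 2 :=
        sum_le_sum fun k _ => gf_bound hF a Y k
    _ = (1 / (N : ℝ)) * ∑ j ∈ range N, ∑ k ∈ (FK K).erase 0, ‖GF (fun z => F z ^ j) Y k‖ ^ 2 := by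
        rw [← mul_sum, sum_comm]
    _ ≤ (1 / (N : ℝ)) * ∑ j ∈ range N, η :=
        mul_le_mul_of_nonneg_left (sum_le_sum key) (by positivity)
    _ = η := by
        rw [sum_const, card_range, nsmul_eq_mul]
        field_simp

end Pool.Agent.W143.GX
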